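import Mathlib

/-!
# Iterating `x ⌈x⌉`: an integer is reached if and only if the fractional parts become periodic
-/

set_option autoImplicit false

namespace Pool.Agent.Results.MP_3c90a9_nt.PeriodicFractions

/-- The map `x ↦ x ⌈x⌉` on the rational numbers. -/
def f (x : ℚ) : ℚ := x * (⌈x⌉ : ℚ)

theorem f_int (m : ℤ) : f (m : ℚ) = ((m * m : ℤ) : ℚ) := by
  unfold f
  rw [Int.ceil_intCast]
  push_cast
  rfl

theorem iter_int (m : ℤ) (k : ℕ) : ∃ m' : ℤ, f^[k] (m : ℚ) = m' := by
  induction k with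
  | zero => exact ⟨m, rfl⟩
  | succ k ih =>
    obtain ⟨m', hm'⟩ := ih
    refine ⟨m' * m', ?_⟩
    rw [Function.iterate_succ_apply', hm', f_int]

/-- integrality persists -/
theorem int_of_le {x : ℚ} {i j : ℕ} (hij : i ≤ j) {m : ℤ} (h : f^[i] x = m) :
    ∃ m' : ℤ, f^[j] x = m' := by
  obtain ⟨k, rfl⟩ := Nat.exists_eq_add_of_le hij
  rw [add_comm, Function.iterate_add_apply, h]
  exact iter_int m k

theorem ceil_of_not_int {x : ℚ} (h : ∀ m : ℤ, x ≠ m) : (⌈x⌉ : ℚ) = ⌊x⌋ + 1 := by
  have h1 : ⌈x⌉ = ⌊x⌋ + 1 := by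
    rw [Int.ceil_eq_iff]
    constructor
    · push_cast
      have h2 : (⌊x⌋ : ℚ) ≤ x := Int.floor_le x
      have h3 : (⌊x⌋ : ℚ) ≠ x := fun h4 => h ⌊x⌋ h4.symm
      have h4 : (⌊x⌋ : ℚ) < x := lt_of_le_of_ne h2 h3
      linarith
    · push_cast
      exact (Int.lt_floor_add_one x).le
  rw [h1]
  push_cast
  rfl

theorem f_den (x : ℚ) : (f x).den ∣ x.den := by
  unfold f
  have h := Rat.mul_den_dvd x (⌈x⌉ : ℚ)
  rwa [Rat.den_intCast, mul_one] at h

theorem iter_den (x : ℚ) (k : ℕ) : (f^[k] x).den ∣ x.den := by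
  induction k with
  | zero => exact dvd_rfl
  | succ k ih =>
    rw [Function.iterate_succ_apply']
    exact (f_den _).trans ih

/-- difference of the images of two points with the same fractional part -/
theorem f_sub {x y : ℚ} (hx : ∀ m : ℤ, x ≠ m) (h : Int.fract x = Int.fract y) :
    f x - f y = (x - y) * (x + ((⌊y⌋ + 1 : ℤ) : ℚ)) := by
  have hy : ∀ m : ℤ, y ≠ m := by
    intro m hm
    have h1 : Int.fract y = 0 := by rw [hm]; exact Int.fract_intCast m
    rw [h1] at h
    have h2 := Int.floor_add_fract x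
    rw [h, add_zero] at h2
    exact hx _ h2.symm
  have e1 := ceil_of_not_int hx
  have e2 := ceil_of_not_int hy
  have e3 := Int.floor_add_fract x
  have e4 := Int.floor_add_fract y
  unfold f
  rw [e1, e2]
  push_cast
  have e5 : (⌊x⌋ : ℚ) = x - Int.fract x := by linarith
  have e6 : (⌊y⌋ : ℚ) = y - Int.fract x := by rw [h]; linarith
  rw [e5, e6]
  ring

/-- two points whose fractional parts agree up to time `t` are congruent modulo `den ^ t` -/
theorem agree (t : ℕ) : ∀ x y : ℚ, (∀ s ≤ t, ∀ m : ℤ, f^[s] x ≠ m) →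
    (∀ s ≤ t, Int.fract (f^[s] x) = Int.fract (f^[s] y)) →
    ∃ c : ℤ, x - y = c * ((f^[t] x).den : ℚ) ^ t := by
  induction t with
  | zero =>
    intro x y _ h
    have h0 := h 0 le_rfl
    simp only [Function.iterate_zero, id_eq] at h0
    refine ⟨⌊x⌋ - ⌊y⌋, ?_⟩
    have e3 := Int.floor_add_fract x
    have e4 := Int.floor_add_fract y
    rw [pow_zero, mul_one]
    push_cast
    linarith
  | succ t ih =>
    intro x y hn h
    have h0 := h 0 (Nat.zero_le _)
    have hn0 := hn 0 (Nat.zero_le _)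
    simp only [Function.iterate_zero, id_eq] at h0 hn0
    obtain ⟨c, hc⟩ := ih (f x) (f y)
      (fun s hs m => by
        have := hn (s + 1) (by omega) m
        rwa [Function.iterate_succ_apply] at this)
      (fun s hs => by
        have := h (s + 1) (by omega)
        rwa [Function.iterate_succ_apply, Function.iterate_succ_apply] at this)
    rw [← Function.iterate_succ_apply] at hc
    set D : ℕ := (f^[t + 1] x).den with hD
    rw [f_sub hn0 h0] at hc
    -- the factor has the denominator of `x`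
    set z : ℚ := x + ((⌊y⌋ + 1 : ℤ) : ℚ) with hz
    have hzd : z.den = x.den := by
      rw [hz]
      exact Rat.add_intCast_den x (⌊y⌋ + 1)
    have hDz : D ∣ z.den := by
      rw [hzd]
      exact iter_den x (t + 1)
    -- `x - y` is an integer
    have hk : x - y = ((⌊x⌋ - ⌊y⌋ : ℤ) : ℚ) := by
      have e3 := Int.floor_add_fract x
      have e4 := Int.floor_add_fract y
      push_cast
      linarith
    set k : ℤ := ⌊x⌋ - ⌊y⌋ with hkd
    have hz2 : z = (z.num : ℚ) / (z.den : ℚ) := (Rat.num_div_den z).symm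
    have hd0 : (z.den : ℚ) ≠ 0 := by
      exact_mod_cast z.den_ne_zero
    have e : k * z.num = c * (D : ℤ) ^ t * (z.den : ℤ) := by
      have e1 : (k : ℚ) * ((z.num : ℚ) / (z.den : ℚ)) = c * (D : ℚ) ^ t := by
        rw [← hz2, ← hk]
        exact hc
      have e2 : (k : ℚ) * (z.num : ℚ) = c * (D : ℚ) ^ t * (z.den : ℚ) := by
        rw [← e1]
        field_simp
      exact_mod_cast e2
    have hdvd : ((D : ℤ)) ^ (t + 1) ∣ k * z.num := by
      rw [e, pow_succ, mul_assoc]
      exact Dvd.dvd.mul_left (mul_dvd_mul_left _ (Int.natCast_dvd_natCast.2 hDz)) c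
    have hcop : IsCoprime ((D : ℤ) ^ (t + 1)) z.num := by
      apply IsCoprime.pow_left
      have h1 : IsCoprime (z.num) (z.den : ℤ) := by
        rw [Int.isCoprime_iff_gcd_eq_one]
        change Nat.gcd z.num.natAbs (z.den : ℤ).natAbs = 1
        rw [Int.natAbs_natCast]
        exact z.reduced
      exact (IsCoprime.of_isCoprime_of_dvd_right h1 (Int.natCast_dvd_natCast.2 hDz)).symm
    obtain ⟨c', hc'⟩ := hcop.dvd_of_dvd_mul_right hdvd
    refine ⟨c', ?_⟩
    rw [hk, hc']
    push_cast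
    ring

theorem f_gt {x : ℚ} (hx : 1 < x) : x < f x := by
  unfold f
  have h1 : (1 : ℤ) < ⌈x⌉ := by
    rw [Int.lt_ceil]
    exact_mod_cast hx
  have h2 : (2 : ℚ) ≤ (⌈x⌉ : ℚ) := by exact_mod_cast h1
  nlinarith

theorem iter_gt {x : ℚ} (hx : 1 < x) (k : ℕ) : 1 < f^[k] x := by
  induction k with
  | zero => exact hx
  | succ k ih =>
    rw [Function.iterate_succ_apply']
    exact ih.trans (f_gt ih)

theorem iter_mono {x : ℚ} (hx : 1 < x) : StrictMono fun k => f^[k] x := by
  refine strictMono_nat_of_lt_succ fun k => ?_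
  rw [Function.iterate_succ_apply']
  exact f_gt (iter_gt hx k)

theorem gap {x : ℚ} (hx : 1 < x) {i j t : ℕ} (hij : i < j) (hn : ∀ m : ℤ, f^[i + t] x ≠ m)
    (h : ∀ s ≤ t, Int.fract (f^[i + s] x) = Int.fract (f^[j + s] x)) :
    ∃ c : ℕ, 0 < c ∧ f^[j] x - f^[i] x = c * ((f^[i + t] x).den : ℚ) ^ t := by
  obtain ⟨c, hc⟩ := agree t (f^[i] x) (f^[j] x)
    (fun s hs m hm => by
      rw [← Function.iterate_add_apply, add_comm] at hm
      obtain ⟨m', hm'⟩ := int_of_le (by omega : i + s ≤ i + t) hm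
      exact hn m' hm')
    (fun s hs => by
      rw [← Function.iterate_add_apply, ← Function.iterate_add_apply, add_comm s i, add_comm s j]
      exact h s hs)
  rw [← Function.iterate_add_apply, add_comm t i] at hc
  have hlt : f^[i] x < f^[j] x := iter_mono hx hij
  have hpos : (0 : ℚ) < ((f^[i + t] x).den : ℚ) ^ t := by
    have : (0 : ℚ) < ((f^[i + t] x).den : ℚ) := by exact_mod_cast (f^[i + t] x).den_pos
    positivity
  have hc0 : c < 0 := by
    by_contra hge
    push Not at hge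
    have h1 : (0 : ℚ) ≤ c := by exact_mod_cast hge
    have h2 := mul_nonneg h1 hpos.le
    linarith
  refine ⟨(-c).toNat, by omega, ?_⟩
  have h3 : (((-c).toNat : ℕ) : ℚ) = -(c : ℚ) := by
    have h4 : (((-c).toNat : ℕ) : ℤ) = -c := Int.toNat_of_nonneg (by omega)
    exact_mod_cast h4
  rw [h3]
  linarith

/-- For every rational `x > 1` the following are equivalent: some iterate of `x ↦ x ⌈x⌉` is an integer; the
sequence of the fractional parts of the iterates is eventually periodic; for some `i < j` and `t` the fractional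
parts at the times `i, …, i + t` are equal to those at the times `j, …, j + t` and
`f^[j] x - f^[i] x < max (2, b) ^ t`, where `b` is the reduced denominator of `f^[i + t] x`. -/
theorem result (x : ℚ) (hx : 1 < x) : List.TFAE [
    ∃ k : ℕ, ∃ m : ℤ, f^[k] x = m,
    ∃ k₀ m : ℕ, 0 < m ∧ ∀ k, k₀ ≤ k → Int.fract (f^[k + m] x) = Int.fract (f^[k] x),
    ∃ i j t : ℕ, i < j ∧ (∀ s ≤ t, Int.fract (f^[i + s] x) = Int.fract (f^[j + s] x)) ∧
      f^[j] x - f^[i] x < (max 2 ((f^[i + t] x).den : ℚ)) ^ t] := by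
  tfae_have 1 → 2 := by
    rintro ⟨k₀, m, hm⟩
    refine ⟨k₀, 1, one_pos, fun k hk => ?_⟩
    obtain ⟨m₁, h1⟩ := int_of_le hk hm
    obtain ⟨m₂, h2⟩ := int_of_le (by omega : k₀ ≤ k + 1) hm
    rw [h1, h2, Int.fract_intCast, Int.fract_intCast]
  tfae_have 2 → 3 := by
    rintro ⟨k₀, m, hm0, hm⟩
    obtain ⟨t, ht⟩ := pow_unbounded_of_one_lt (f^[k₀ + m] x - f^[k₀] x) (by norm_num : (1 : ℚ) < 2)
    refine ⟨k₀, k₀ + m, t, by omega, fun s _ => ?_, ht.trans_le ?_⟩
    · rw [add_right_comm]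
      exact (hm (k₀ + s) (by omega)).symm
    · exact pow_le_pow_left₀ (by norm_num) (le_max_left _ _) t
  tfae_have 3 → 1 := by
    rintro ⟨i, j, t, hij, h, hlt⟩
    by_contra hcon
    push Not at hcon
    obtain ⟨c, hc0, hc⟩ := gap hx hij (fun m' => hcon _ m') h
    have hden : 2 ≤ (f^[i + t] x).den := by
      have h1 := (f^[i + t] x).den_pos
      have h2 : (f^[i + t] x).den ≠ 1 := by
        intro h3
        exact hcon (i + t) _ (Rat.coe_int_num_of_den_eq_one h3).symm
      omega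
    have h2 : (2 : ℚ) ≤ ((f^[i + t] x).den : ℚ) := by exact_mod_cast hden
    rw [max_eq_right h2, hc] at hlt
    have h4 : (1 : ℚ) ≤ c := by exact_mod_cast hc0
    have h5 : (0 : ℚ) ≤ ((f^[i + t] x).den : ℚ) ^ t := by positivity
    nlinarith
  tfae_finish

end Pool.Agent.Results.MP_3c90a9_nt.PeriodicFractions
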